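import Pool.Agent.L0h15.RC.Main

/-!
# MP_ffd2c1_ag: Hassett's conjecture and cubic fourfolds over the algebraic numbers

`D` consists of the complex smooth cubic fourfolds, as points of an open set in a projective space, with
the Zariski topology, the action of the automorphisms of the complex numbers and the lattices `A(X)` of
Hodge classes in `H^4(X, ℤ)`. The property `P` of cubic fourfolds is, for example, that `X` is rational
(theorem of Kontsevich and Tschinkel), or that it is stably rational (Nicaise and Shinder).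
-/

set_option autoImplicit false

namespace Pool.Agent.Results.MP_ffd2c1_ag.AlgebraicPoints

open Pool.Agent.L0h15.RC

theorem result (D : Cubics) (hG : D.Geometry) (hH : D.Hodge) (P : D.Pt → Prop) (hP : D.Spreads P) :
    -- for each rational `X` there is a rational `Y` over the algebraic numbers with a primitive
    -- embedding of `A(Y)` in `A(X)`
    (∀ x, P x → ∃ y, D.IsAlg y ∧ P y ∧ Embeds (D.A y) (D.A x)) ∧
    -- irrationality for a class of lattices
    (∀ K : HLat → Prop, (∀ L M, Embeds L M → K M → K L) →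
      ((∀ x, K (D.A x) → ¬ P x) ↔ ∀ x, D.IsAlg x → K (D.A x) → ¬ P x)) ∧
    -- the first half of Hassett's conjecture: it is enough to consider the algebraic numbers
    ((∀ x, P x → HasK3 (D.A x)) ↔ ∀ x, D.IsAlg x → P x → HasK3 (D.A x)) ∧
    -- the second half: it is enough to consider lattices of rank two, or sets which are not small
    ((∀ x, HasK3 (D.A x) → P x) ↔ ∀ x, rk (D.A x) = 2 → HasK3 (D.A x) → P x) ∧
    ((∀ x, HasK3 (D.A x) → P x) ↔
      ∀ d, Admissible d → ¬ D.Small (D.C d) {x | x ∈ D.C d ∧ P x}) ∧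
    -- the conjecture
    ((∀ x, P x ↔ HasK3 (D.A x)) ↔
      (∀ x, D.IsAlg x → P x → HasK3 (D.A x)) ∧
        ∀ x, rk (D.A x) = 2 → HasK3 (D.A x) → P x) := by
  refine ⟨fun x hx => Cubics.exists_alg hG hH hP hx,
    fun K hK => ⟨fun h x _ => h x, fun h => Cubics.none_of_alg hG hH hP hK h⟩,
    ⟨fun h x _ => h x, fun h => Cubics.k3_of_alg hG hH hP h⟩,
    ⟨fun h x _ => h x, fun h => Cubics.rational_of_rank hG hH hP h⟩,
    Cubics.all_iff_not_small hG hH hP,
    ⟨fun h => ⟨fun x _ => (h x).1, fun x _ => (h x).2⟩, fun h x =>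
      ⟨Cubics.k3_of_alg hG hH hP h.1 x, Cubics.rational_of_rank hG hH hP h.2 x⟩⟩⟩

end Pool.Agent.Results.MP_ffd2c1_ag.AlgebraicPoints
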