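import Pool.Agent.L0h18.CF.Six

/-!
# Cubic fourfolds with many classes of elliptic scrolls

Let `X` be a smooth cubic fourfold, `A(X)` the group of its Hodge classes in `H^4(X, ℤ)` and `ρ` the
rank of `A(X)`. A Hodge class `z` with `z.h = 0` and `z.z = 6` spans with `h` a lattice of
discriminant `18`; the classes `2 h + z` are the classes of the elliptic scrolls of degree six, and
also of the fibres of the corresponding fibrations of (a blow-up of) `X` by sextic del Pezzo surfaces
over the projective plane. By the theorem of Addington, Hassett, Tschinkel and Várilly-Alvarado `X`
is rational if there are such a `z` and a Hodge class `T` such that `T.(2 h + z)` is not divisible by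
three (`Known18`).

**Theorem.** If there are at least `3 ^ (22 - ρ)` classes `z` then there are `z` and `T` such that
`T.(2 h + z)` is not divisible by three, and `X` has an associated K3 surface.

For instance, this is so if `ρ = 21` and there are `z`, `z'` with `z' ≠ ± z`, or if `ρ = 20` and there
are at least five pairs `± z`. So `X` is rational in these cases. This is the analogue, for the
discriminant `18`, of the starting result that `X` is rational if it contains at least `2 ^ (23 - ρ)`
planes. As the opposite of a class `z` is also such a class, the condition is that on
`T.(2 h + z)` and `T.(2 h - z)`: it says that `T.h` or `T.z` is not divisible by three.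

Proof. Suppose that `T.(2 h + z)` is divisible by three for all `z` and `T`. By applying this to `z` and
`-z` one finds that `T.h` and `T.z` are divisible by three. So the classes `z + c h`, `c = 0, 1, 2`,
where `z` is a class as above or `0`, are orthogonal to `A(X)` modulo three. They are different modulo
three: otherwise `z - z' + c h = 3 a`, `c = a.h` is divisible by three, so `c = 0`, and
`9 a.a = (z - z')^2 ≤ 24`, so `a.a ≤ 2`, and `a = 0`, as the square of `a` is even and not two. As
`H^4(X, ℤ)` is unimodular of rank `23` and `A(X)` is a primitive sublattice, the space of the classes
which are orthogonal to `A(X)` modulo three has the dimension `23 - ρ`. This gives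
`3 (N + 1) ≤ 3 ^ (23 - ρ)` for the number `N` of the classes `z`.

For the K3 surface: if `T.h` or `T.z` is not divisible by three then some combination of `z` and `T` has
the discriminant `2 (x ^ 2 + x y + y ^ 2)` with `y = 1`, or `y = 2` and `x` odd; then all prime
divisors of the discriminant of its saturation are as in the criterion of Hassett.
-/

set_option autoImplicit false

namespace Pool.Agent.Results.MP_ffd2c1_ag.ManyEllipticScrolls

open Pool.Agent.Y95.Q Pool.Agent.L0h18.CF

/-- **Cubic fourfolds with many classes of elliptic scrolls.** Let `X` be a smooth cubic fourfold, and
`ρ` the rank of the group of Hodge classes. If there are at least `3 ^ (22 - ρ)` Hodge classes `z` with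
`z.h = 0` and `z.z = 6` then there are such a `z` and a Hodge class `T` such that `T.(2 h + z)` is not
divisible by three, and `X` has an associated K3 surface. -/
theorem result {X : CubicFourfold} {H : H4 X} (hH : IsHodgeLattice H)
    (hN : 3 ^ (22 - H.rank) ≤ Nat.card {z // H.IsHodge z ∧ H.ip z H.h = 0 ∧ H.ip z z = 6}) :
    (∃ z T, H.IsHodge z ∧ H.IsHodge T ∧ H.ip z H.h = 0 ∧ H.ip z z = 6 ∧
      ¬ 3 ∣ H.ip T ((2 : ℤ) • H.h + z)) ∧ H.HasK3 :=
  ⟨many_six hH hN, hasK3_of_known18 hH (many_six hH hN)⟩

end Pool.Agent.Results.MP_ffd2c1_ag.ManyEllipticScrolls
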