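import Pool.Agent.L0h18.CF.Rank

/-!
# Cubic fourfolds whose algebraic classes are generated by classes of small discriminant

Let `X` be a smooth cubic fourfold and `A(X)` the group of its Hodge classes in `H^4(X, ℤ)`, of rank
`ρ`. The discriminant of `v` is that of the lattice spanned by `h` and `v` (`h` is the square of the
hyperplane class); it is `0` for the multiples of `h`, `8` for planes, `12` for cubic scrolls, `14` for
quartic scrolls and quintic del Pezzo surfaces, `18` for elliptic scrolls of degree six.

We suppose that

* `A(X)` is generated, up to an index prime to six, by classes of discriminant at most `18` (for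
  example by `h`, planes and cubic scrolls); or
* `X` contains a plane, and `A(X)` is generated, up to an index prime to six, by classes of
  discriminant at most `30`.

There is no condition on the rank. We show (`result`) that the following are equivalent:

* `X` has an associated K3 surface (`HasK3`: the criterion of Hassett for the existence of a
  polarised K3 surface `(S, H)` with a primitive isometric embedding of the Hodge structure
  `H^2(S, ℤ)_pr` in `H^4(X, ℤ)_pr`);
* one of the known criteria for the rationality of `X` holds (`Known`): a plane `P` and a class `T`
  with `T.(h - P)` odd, or a class of discriminant `14`, `26`, `38` or `42`, or classes `z`, `T`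
  orthogonal to `h` with `z.z = 6` and `T.z` not divisible by three.

Moreover both are true if `ρ ≥ 13`. So for these `X` the existence of an associated K3 surface implies
that `X` is rational, as Hassett's conjecture predicts, and `X` is rational if `ρ ≥ 13`, by the
theorems of Hassett, of Fano, Beauville, Donagi, Bolognesi, Russo and Staglianò (`14`), of Russo and
Staglianò (`26`, `38`, `42`) and of Addington, Hassett, Tschinkel and Várilly-Alvarado (`18`). These
theorems are not used in the Lean proof; they are the hypothesis `Known H → X.IsRational` in the last
part. The implication from `Known` to `HasK3` holds for all cubic fourfolds.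

The bounds `18` and `30` are best possible for this method: there are positive definite lattices
generated by `h` and classes of discriminant `20` (or by `h`, a plane and classes of discriminant
`32`) which have classes `v` as in Hassett's criterion, and for which all the known criteria for the
rationality fail.

## Proof

Suppose that no criterion holds. Let `b(v, w) = 3 v.w - (h.v)(h.w)` be the polar form of the
discriminant.

(1) Let `P` be a plane in `X`. If `v` is a class of discriminant `18` or `30` then `b(P, v)` is
divisible by six, and one of the discriminants of `P + v`, `P - v` is `2`, `14`, `26` or `38`, which is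
impossible. So all discriminants up to `42` are divisible by four. If `b(v, w)` were odd for two
generators then `v + w` or `v - w` would have a discriminant at most `46` and congruent to `2` modulo
four, which is impossible. So `b` is even and all discriminants are divisible by four: there is no
associated K3 surface.

(2) If `X` contains no plane then the generators can be taken orthogonal to `h` (or `h`), with the
squares `4` and `6`. If there is no class of square `6` then the products of the classes of square
four are even (otherwise their sum or difference would have square six), and we conclude as in (1). If
there is a class of square `6` then all products of such classes are divisible by three. If two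
classes `v`, `w` of square four have product one, then no class `u` of square four is orthogonal to
`v`, as then `u.w = 0`, and `u + v + w` has square `14`, discriminant `42`. By comparing the classes of
square six `v - w`, `u ± v`, `u + w`, `v + w - u` one finds `u.y ≡ (u.v)(y.v)` modulo three for all
`y`. If all products of classes of square four are even then they are orthogonal to the classes `z` of
square six (otherwise `z ± u` has square four and odd product with `u`), and not to each other
(otherwise `u + u' + z` has discriminant `42`), and the same congruence holds. So the form on `A(X)` is
the square of a linear form modulo three, and there is no associated K3 surface: the discriminants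
are divisible by `9`, or they are `6 m` with `m ≡ 2` modulo three.

(3) In both cases the form on `A(X)` modulo two or three has rank at most one. As `A(X)` is a
primitive sublattice of the unimodular lattice `H^4(X, ℤ)` of rank `23`, this implies
`2 ρ - 1 ≤ 23`.

(4) The criteria imply `HasK3`: in each case there is a class `v` of discriminant
`2 (x ^ 2 + x y + y ^ 2)` with coprime `x`, `y`.

The definitions (`CubicFourfold`, `H4`, `HasK3`) and part of the arithmetic are from the starting
file `ManyPlanes`.
-/

set_option autoImplicit false

namespace Pool.Agent.Results.MP_ffd2c1_ag.SmallDiscriminants

open Pool.Agent.Y95.Q Pool.Agent.L0h18.CF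

/-- **Cubic fourfolds whose Hodge classes are generated by classes of small discriminant.** Let
`A(X)` be generated, up to an index prime to six, by classes of discriminant at most `18`, or let `X`
contain a plane and `A(X)` be generated, up to an index prime to six, by classes of discriminant at
most `30`. Then `X` has an associated K3 surface if and only if one of the known criteria for the
rationality holds, and this is so if the rank of `A(X)` is at least `13`. So `X` is rational if it has
an associated K3 surface, and if the rank of `A(X)` is at least `13`. -/
theorem result {X : CubicFourfold} {H : H4 X} (hH : IsHodgeLattice H)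
    (hgen : Generated H 18 ∨ (Nonempty X.Plane ∧ Generated H 30)) :
    (H.HasK3 ↔ Known H) ∧ (13 ≤ H.rank → Known H) ∧
      ((Known H → X.IsRational) → H.HasK3 ∨ 13 ≤ H.rank → X.IsRational) := by
  have h2 : Fact (Nat.Prime 2) := ⟨Nat.prime_two⟩
  have h3 : Fact (Nat.Prime 3) := ⟨Nat.prime_three⟩
  have key : ¬ Known H → ¬ H.HasK3 ∧ ¬ 13 ≤ H.rank := by
    intro hK
    have hcase : ((∀ u v, H.IsHodge u → H.IsHodge v → 2 ∣ bb H u v) ∧
        ∀ u, H.IsHodge u → 4 ∣ H.disc u) ∨ ((∀ u, H.IsHodge u → 3 ∣ H.ip H.h u) ∧
        ∃ c, ∀ u v, H.IsHodge u → H.IsHodge v → 3 ∣ H.ip u v - H.ip u c * H.ip v c) := by
      by_cases hP : Nonempty X.Plane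
      · obtain ⟨P⟩ := hP
        left
        refine plane_case hH hK P ?_
        rcases hgen with h | h
        · intro v hv
          obtain ⟨n, hn, hnv⟩ := h v hv
          have hsub : {w | H.IsHodge w ∧ H.disc w ≤ 18} ⊆ {w | H.IsHodge w ∧ H.disc w ≤ 30} :=
            fun w hw => ⟨hw.1, hw.2.trans (by norm_num)⟩
          exact ⟨n, hn, Submodule.span_mono hsub hnv⟩
        · exact h.2
      · rcases hgen with h | h
        · exact scroll_case hH hK hP h
        · exact absurd h.1 hP
    rcases hcase with ⟨hb, h4⟩ | ⟨hh, c, hc⟩
    · refine ⟨not_hasK3_four h4, ?_⟩
      have h5 : H.rank ≤ 12 := by
        refine rank_le 2 hH (c := H.h) fun u v hu hv => ?_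
        have h6 := hb u v hu hv
        rw [bb] at h6
        have h7 : H.ip u v - H.ip u H.h * H.ip v H.h =
            (3 * H.ip u v - H.ip H.h u * H.ip H.h v) - 2 * H.ip u v := by
          rw [comm hH u H.h, comm hH v H.h]; ring
        rw [h7]
        exact_mod_cast dvd_sub h6 (Dvd.intro _ rfl)
      omega
    · refine ⟨not_hasK3_three hH hh hc, ?_⟩
      have h5 : H.rank ≤ 12 := rank_le 3 hH (c := c) fun u v hu hv => by exact_mod_cast hc u v hu hv
      omega
  have h4 : H.HasK3 → Known H := fun h => by
    by_contra hK
    exact (key hK).1 h
  have h5 : 13 ≤ H.rank → Known H := fun h => by
    by_contra hK
    exact (key hK).2 h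
  exact ⟨⟨h4, hasK3_of_known hH⟩, h5, fun h h' => h (h'.elim h4 h5)⟩

end Pool.Agent.Results.MP_ffd2c1_ag.SmallDiscriminants
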